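import Pool.Agent.Helper17.PP.GoalsC2

/-!
# Project PP (MP_fc6b1e_nt), part C: packet C_MNS

The main terms for small `q`.
-/

namespace Pool.Agent.Helper98.PP

open Finset Pool.Agent.Helper17.PP

section sys

variable {p : ℕ} {B B₀ k U Λ C : Type} [Field k] [AddCommGroup U] [Module k U]
    [AddCommGroup Λ] [Module k Λ] [AddCommGroup C] (S : Sys p B B₀ k U Λ C)

theorem lt_bl (q : B) : S.N q < 2 ^ (S.bl q + 1) :=
  Nat.lt_pow_succ_log_self (by norm_num) _

theorem mem_blk' (j : ℕ) (q : B) : q ∈ S.blk j ↔ S.bl q = j := by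
  classical
  unfold Sys.blk
  rw [Finset.mem_filter, Set.Finite.mem_toFinset]
  constructor
  · exact fun h => h.2
  · intro h
    refine ⟨?_, h⟩
    show S.N q ≤ 2 ^ (j + 1)
    rw [← h]; exact (lt_bl S q).le

theorem mem_below' (n : ℕ) (q : B) : q ∈ S.below n ↔ S.bl q < n := by
  classical
  unfold Sys.below
  rw [Finset.mem_filter, Set.Finite.mem_toFinset]
  constructor
  · exact fun h => h.2
  · intro h
    refine ⟨?_, h⟩
    show S.N q ≤ 2 ^ n
    exact (lt_bl S q).le.trans (Nat.pow_le_pow_right (by norm_num) h)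

theorem mem_upto' (Y : ℝ) (hY : 0 ≤ Y) (q : B) : q ∈ S.upto Y ↔ (S.N q : ℝ) ≤ Y := by
  unfold Sys.upto
  rw [Set.Finite.mem_toFinset]
  show S.N q ≤ ⌊Y⌋₊ ↔ _
  exact Nat.le_floor_iff hY

theorem nm_erase [DecidableEq B] (b : Finset B) (q : B) (hq : q ∈ b) :
    S.nm b = S.N q * S.nm (b.erase q) := by
  unfold Sys.nm
  exact (Finset.mul_prod_erase b S.N hq).symm

end sys

theorem pow_lg_le (X : ℝ) (hX : 1 ≤ X) : (2 : ℝ) ^ lg X ≤ X := by
  have h1 : ⌊X⌋₊ ≠ 0 := by
    intro h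
    rw [Nat.floor_eq_zero] at h
    linarith
  have h2 : 2 ^ lg X ≤ ⌊X⌋₊ := Nat.pow_log_le_self 2 h1
  have h3 : ((2 ^ lg X : ℕ) : ℝ) ≤ (⌊X⌋₊ : ℝ) := by exact_mod_cast h2
  have h4 : (⌊X⌋₊ : ℝ) ≤ X := Nat.floor_le (by linarith)
  calc (2 : ℝ) ^ lg X = ((2 ^ lg X : ℕ) : ℝ) := by push_cast; rfl
    _ ≤ X := h3.trans h4

theorem c_mns (hdec : C_DEC) : Pool.Agent.Helper17.PP.C_MNS := by
  classical
  intro p _ B B₀ k U Λ C _ _ _ _ _ _ _ _ _ _ _ S ψ ψ₁ g K hH
  have hK1 : (1 : ℝ) ≤ K := by exact_mod_cast hH.one_le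
  have hK0 : (0 : ℝ) < K := by linarith
  obtain ⟨K', hK'⟩ : ∃ K' : ℕ, (K : ℝ) ^ 3 * Real.exp K ≤ K' := exists_nat_ge _
  refine ⟨K', fun E j X P hj hjt hX hlg => ?_⟩
  have hX0 : 0 < X := by linarith
  obtain ⟨Q, hQe⟩ : ∃ Q : ℝ, Q = Fintype.card k := ⟨_, rfl⟩
  have hQ : 2 ≤ Q := by
    rw [hQe]
    have h : 1 < Fintype.card k := Fintype.one_lt_card
    exact_mod_cast h
  have hQ0 : 0 < Q := by linarith
  have hQ1 : 1 / Q ≤ 1 / 2 := one_div_le_one_div_of_le (by norm_num) hQ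
  rw [← hQe]
  -- the function
  obtain ⟨f, hf⟩ : ∃ f : B → ℝ, f = fun q' => if S.spl q' ∧ j < S.bl q' ∧ S.bl q' ≤ th E j then
    1 / Q else 1 := ⟨_, rfl⟩
  have hf01 : ∀ q, 0 ≤ f q ∧ f q ≤ 1 := by
    intro q
    rw [hf]
    dsimp only
    split_ifs
    · exact ⟨by positivity, by linarith⟩
    · exact ⟨by norm_num, le_refl _⟩
  obtain ⟨F, hF⟩ : ∃ F : B → Finset B → ℝ, F = fun q r => if S.bl q = j then
    (∏ q' ∈ r, f q') * Real.exp (-(S.nm r / (X / S.N q))) else 0 := ⟨_, rfl⟩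
  have hprod0 : ∀ r : Finset B, 0 ≤ ∏ q' ∈ r, f q' := fun r =>
    Finset.prod_nonneg fun q _ => (hf01 q).1
  have hF0 : ∀ q r, 0 ≤ F q r := by
    intro q r
    rw [hF]
    dsimp only
    split_ifs
    · exact mul_nonneg (hprod0 r) (Real.exp_pos _).le
    · exact le_refl _
  have hN0 : ∀ q, (0 : ℝ) < S.N q := by
    intro q
    have h := S.two_le q
    exact_mod_cast (by omega : 0 < S.N q)
  -- step 1
  have h1 : ∑ b ∈ P.powerset, ∑ q ∈ b with (S.Wt E b q ∧ S.bl q = j),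
        (1 / Q : ℝ) ^ (S.rt E b q).card * Real.exp (-(S.nm b / X)) ≤
      ∑ b ∈ P.powerset, ∑ q ∈ b, F q (b.erase q) := by
    refine Finset.sum_le_sum fun b _ => ?_
    rw [Finset.sum_filter]
    refine Finset.sum_le_sum fun q hq => ?_
    split_ifs with h
    · refine le_of_eq ?_
      rw [hF]
      dsimp only
      rw [if_pos h.2]
      congr 1
      · rw [← Finset.prod_const, hf]
        unfold Sys.rt
        rw [Finset.prod_filter, h.2]
      · congr 2
        rw [nm_erase S b q hq]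
        have := (hN0 q).ne'
        push_cast
        field_simp
    · exact hF0 _ _
  refine h1.trans ?_
  rw [(hdec B P).1 ℝ F]
  -- step 2
  have h2 : ∑ r ∈ P.powerset, ∑ q ∈ P \ r, F q r ≤
      ∑ r ∈ P.powerset, ∑ q ∈ S.blk j, (∏ q' ∈ r, f q') *
        Real.exp (-(S.nm r / (X / S.N q))) := by
    refine Finset.sum_le_sum fun r _ => ?_
    have h3 : ∑ q ∈ P \ r, F q r = ∑ q ∈ (P \ r).filter (fun q => S.bl q = j),
        (∏ q' ∈ r, f q') * Real.exp (-(S.nm r / (X / S.N q))) := by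
      rw [Finset.sum_filter, hF]
    rw [h3]
    refine Finset.sum_le_sum_of_subset_of_nonneg ?_ fun q _ _ =>
      mul_nonneg (hprod0 r) (Real.exp_pos _).le
    intro q hq
    rw [mem_blk']
    exact (Finset.mem_filter.1 hq).2
  refine h2.trans ?_
  rw [Finset.sum_comm]
  -- the numbers `m`, `n`
  obtain ⟨n, hn⟩ : ∃ n : ℕ, n = min (th E j + 1) (lg X - j - 1) := ⟨_, rfl⟩
  rw [← hn]
  have hn1 : j + 1 ≤ n := by rw [hn]; omega
  have hn2 : n ≤ th E j + 1 := by rw [hn]; exact min_le_left _ _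
  have hn3 : n + (j + 1) ≤ lg X := by
    have h : n ≤ lg X - j - 1 := by rw [hn]; exact min_le_right _ _
    omega
  have hn0 : (0 : ℝ) < n := by
    have : 0 < n := by omega
    exact_mod_cast this
  have hm0 : (0 : ℝ) < ((j + 1 : ℕ) : ℝ) := by exact_mod_cast Nat.succ_pos j
  obtain ⟨ρ, hρ⟩ : ∃ ρ : ℝ, ρ = (((j + 1 : ℕ) : ℝ) / (n : ℕ)) ^ (1 / (2 * K) : ℝ) := ⟨_, rfl⟩
  have hρ0 : 0 ≤ ρ := by rw [hρ]; positivity
  rw [← hρ]
  have hgX : 1 ≤ g X := hH.g_one X
  -- step 3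
  have h3 : ∀ q ∈ S.blk j, ∑ r ∈ P.powerset, (∏ q' ∈ r, f q') *
      Real.exp (-(S.nm r / (X / S.N q))) ≤ (K : ℝ) ^ 2 * Real.exp K * ρ * (X * g X) *
        (1 / S.N q) := by
    intro q hq
    rw [mem_blk'] at hq
    have hY0 : 0 < X / S.N q := div_pos hX0 (hN0 q)
    have hN1 : (1 : ℝ) ≤ S.N q := by
      have := S.two_le q
      exact_mod_cast (by omega : 1 ≤ S.N q)
    have hYX : X / S.N q ≤ X := div_le_self hX0.le hN1
    have hht := hH.ht f (fun q => ⟨(hf01 q).1, (hf01 q).2.trans (by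
      have : (0 : ℝ) ≤ Fintype.card k := Nat.cast_nonneg _
      linarith)⟩) (X / S.N q) hY0 P
    refine hht.trans ?_
    -- the exponent
    have hsub : ∀ q' ∈ S.below n, q' ∈ S.upto (X / S.N q) := by
      intro q' hq'
      rw [mem_below'] at hq'
      rw [mem_upto' S _ hY0.le, le_div_iff₀ (hN0 q)]
      have h4 : S.N q' * S.N q ≤ 2 ^ lg X := by
        calc S.N q' * S.N q ≤ 2 ^ n * 2 ^ (j + 1) := by
              refine Nat.mul_le_mul ?_ ?_
              · exact (lt_bl S q').le.trans (Nat.pow_le_pow_right (by norm_num) hq')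
              · rw [← hq]; exact (lt_bl S q).le
          _ = 2 ^ (n + (j + 1)) := by ring
          _ ≤ 2 ^ lg X := Nat.pow_le_pow_right (by norm_num) hn3
      have h5 : ((S.N q' * S.N q : ℕ) : ℝ) ≤ ((2 ^ lg X : ℕ) : ℝ) := by exact_mod_cast h4
      push_cast at h5
      exact h5.trans (pow_lg_le X hX)
    have hexp : ∑ q' ∈ S.upto (X / S.N q), (f q' - 1) / S.N q' ≤
        -(1 / 2) * ∑ q' ∈ S.below n with S.spl q' ∧ (j + 1) ≤ S.bl q', (1 : ℝ) / S.N q' := by
      rw [Finset.sum_filter, Finset.mul_sum]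
      have h4 : ∑ q' ∈ S.upto (X / S.N q), (f q' - 1) / S.N q' ≤
          ∑ q' ∈ S.below n, (f q' - 1) / S.N q' := by
        rw [← Finset.sum_sdiff (fun q' hq' => hsub q' hq' : S.below n ⊆ S.upto (X / S.N q))]
        have h5 : ∑ q' ∈ S.upto (X / S.N q) \ S.below n, (f q' - 1) / S.N q' ≤ 0 := by
          refine Finset.sum_nonpos fun q' _ => ?_
          exact div_nonpos_of_nonpos_of_nonneg (by linarith [(hf01 q').2]) (hN0 q').le
        linarith
      refine h4.trans (Finset.sum_le_sum fun q' hq' => ?_)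
      rw [mem_below'] at hq'
      split_ifs with h5
      · have h6 : f q' = 1 / Q := by
          rw [hf]
          exact if_pos ⟨h5.1, h5.2, by omega⟩
        rw [h6, div_eq_mul_inv, one_div (S.N q' : ℝ)]
        refine mul_le_mul_of_nonneg_right (by linarith) (inv_nonneg.2 (hN0 q').le)
      · rw [mul_zero]
        exact div_nonpos_of_nonpos_of_nonneg (by linarith [(hf01 q').2]) (hN0 q').le
    have hmers := hH.mers (j + 1) n (by omega) hn1
    have hE : Real.exp (∑ q' ∈ S.upto (X / S.N q), (f q' - 1) / S.N q') ≤ Real.exp K * ρ := by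
      have h4 : ρ = Real.exp (-(1 / (2 * K)) * Real.log (n / ((j + 1 : ℕ) : ℝ))) := by
        rw [hρ, Real.rpow_def_of_pos (by positivity)]
        congr 1
        rw [Real.log_div hm0.ne' hn0.ne', Real.log_div hn0.ne' hm0.ne']
        ring
      rw [h4, ← Real.exp_add]
      refine Real.exp_le_exp.2 (hexp.trans ?_)
      have h5 : ∑ q' ∈ S.below n with S.spl q' ∧ (j + 1) ≤ S.bl q', (1 : ℝ) / S.N q' ≥
          (1 / K : ℝ) * Real.log (n / ((j + 1 : ℕ) : ℝ)) - K := hmers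
      have h6 : -(1 / 2) * ∑ q' ∈ S.below n with S.spl q' ∧ (j + 1) ≤ S.bl q', (1 : ℝ) / S.N q' ≤
          -(1 / 2) * ((1 / K : ℝ) * Real.log (n / ((j + 1 : ℕ) : ℝ)) - K) := by linarith
      refine h6.trans ?_
      have h7 : -(1 / 2) * ((1 / K : ℝ) * Real.log (n / ((j + 1 : ℕ) : ℝ)) - K) =
          -(1 / (2 * K)) * Real.log (n / ((j + 1 : ℕ) : ℝ)) + K / 2 := by
        field_simp
        ring
      rw [h7]
      linarith
    have hgY : g (X / S.N q) ≤ K * g X := hH.g_mono _ _ hYX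
    have hgY0 : 0 ≤ g (X / S.N q) := by linarith [hH.g_one (X / S.N q)]
    have h8 : X / S.N q * min 1 (X / S.N q) * g (X / S.N q) ≤ X / S.N q * (K * g X) := by
      calc X / S.N q * min 1 (X / S.N q) * g (X / S.N q)
          ≤ X / S.N q * 1 * g (X / S.N q) := by
            refine mul_le_mul_of_nonneg_right ?_ hgY0
            exact mul_le_mul_of_nonneg_left (min_le_left _ _) hY0.le
        _ = X / S.N q * g (X / S.N q) := by rw [mul_one]
        _ ≤ X / S.N q * (K * g X) := mul_le_mul_of_nonneg_left hgY hY0.le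
    calc K * (X / S.N q * min 1 (X / S.N q) * g (X / S.N q)) *
          Real.exp (∑ q' ∈ S.upto (X / S.N q), (f q' - 1) / S.N q')
        ≤ K * (X / S.N q * (K * g X)) * (Real.exp K * ρ) := by
          refine mul_le_mul (mul_le_mul_of_nonneg_left h8 hK0.le) hE (Real.exp_pos _).le ?_
          positivity
      _ = (K : ℝ) ^ 2 * Real.exp K * ρ * (X * g X) * (1 / S.N q) := by
          field_simp
  -- step 4
  refine (Finset.sum_le_sum h3).trans ?_
  rw [← Finset.mul_sum]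
  have hche := hH.che j hj
  have hj0 : (0 : ℝ) < j := by exact_mod_cast hj
  calc (K : ℝ) ^ 2 * Real.exp K * ρ * (X * g X) * ∑ q ∈ S.blk j, (1 : ℝ) / S.N q
      ≤ (K : ℝ) ^ 2 * Real.exp K * ρ * (X * g X) * (K / j) := by
        refine mul_le_mul_of_nonneg_left hche ?_
        have : 0 ≤ g X := by linarith
        positivity
    _ = ((K : ℝ) ^ 3 * Real.exp K) * (1 / j * ρ * (X * g X)) := by ring
    _ ≤ K' * (1 / j * ρ * (X * g X)) := by
        refine mul_le_mul_of_nonneg_right hK' ?_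
        have : 0 ≤ g X := by linarith
        positivity
    _ = K' / j * ρ * (X * g X) := by ring

end Pool.Agent.Helper98.PP
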